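import Mathlib
import Pool.Agent.H104R3.EG.Stmts

set_option autoImplicit false

/-! Task PRig of the project EG (rigid systems for `p`-groups). -/

namespace Pool.Agent.H104R3.EG

namespace PRig632

theorem real_mono {G : Type} [Group G] {m n : ℕ} {P Q : (G → G) → Prop} (hmn : m ≤ n)
    (hPQ : ∀ α, P α → Q α) (h : Real G m P) : Real G n Q := by
  obtain ⟨S, h1, h2⟩ := h
  exact ⟨S, le_trans h1 hmn, fun α hα => hPQ α (h2 α hα)⟩

theorem exists_central {p : ℕ} (hp : p.Prime) (P : Type) [Group P] [Finite P] [Nontrivial P]
    (hP : IsPGroup p P) : ∃ N : Subgroup P, N ≤ Subgroup.center P ∧ Nat.card N = p := by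
  have hfact : Fact p.Prime := ⟨hp⟩
  have hc : Nontrivial (Subgroup.center P) := hP.center_nontrivial
  have hcp : IsPGroup p (Subgroup.center P) := hP.to_subgroup _
  obtain ⟨k, hk, hcard⟩ := (hcp.nontrivial_iff_card).mp hc
  have hdvd : p ∣ Nat.card (Subgroup.center P) := by
    rw [hcard]
    exact dvd_pow_self p (by omega)
  obtain ⟨z, hz⟩ := exists_prime_orderOf_dvd_card' p hdvd
  refine ⟨Subgroup.zpowers (z : P), ?_, ?_⟩
  · rw [Subgroup.zpowers_le]
    exact z.2
  · rw [Nat.card_zpowers, Subgroup.orderOf_coe, hz]

end PRig632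

open PRig632

theorem taskPRig : TaskPRig := by
  intro hGen hExt hPInc p hp
  have key : ∀ n : ℕ, ∀ (P : Type) [Group P] [Finite P], IsPGroup p P → Nat.card P = n →
      Rig P (44 * Nat.card P) := by
    intro n
    induction n using Nat.strong_induction_on with
    | _ n ih =>
      intro P _ _ hP hn
      rcases subsingleton_or_nontrivial P with hs | hnt
      · refine real_mono ?_ ?_ (hGen P 1)
        · exact Nat.mul_le_mul_right _ (by norm_num)
        · intro α hα x
          rw [Subsingleton.elim x 1]
          exact hα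
      · obtain ⟨N, hN, hNp⟩ := exists_central hp P hP
        have hnorm : N.Normal := ⟨fun x hx g => by
          have h1 : g * x = x * g := (Subgroup.mem_center_iff.mp (hN hx)) g
          rw [h1, mul_assoc, mul_inv_cancel, mul_one]
          exact hx⟩
        have hcard : Nat.card P = Nat.card (P ⧸ N) * Nat.card N :=
          Subgroup.card_eq_card_quotient_mul_card_subgroup N
        rw [hNp] at hcard
        have hp2 : 2 ≤ p := hp.two_le
        have hpos : 0 < Nat.card (P ⧸ N) := Nat.card_pos
        have h2 : 2 * Nat.card (P ⧸ N) ≤ Nat.card P := by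
          rw [hcard, mul_comm]
          exact Nat.mul_le_mul_left _ hp2
        have hlt : Nat.card (P ⧸ N) < n := by omega
        have hq : Rig (P ⧸ N) (44 * Nat.card (P ⧸ N)) :=
          ih _ hlt (P ⧸ N) (hP.to_quotient N) rfl
        have hinc := hPInc p hp P hP N hN hNp
        refine real_mono ?_ (fun α h => h) (hExt P N _ _ hq hinc)
        omega
  intro P _ _ hP
  exact key _ P hP rfl

end Pool.Agent.H104R3.EG
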